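import Pool.Agent.Zk46.FD.Defs

/-! Module SQ3: the moduli whose squares have a small multiple near a multiple of `b`. -/

set_option autoImplicit false

open Finset

namespace Pool.Agent.Zk78.FD46

open Pool.Agent.Zk46.FD

/-- elements which agree modulo `m` and have the same quotient agree -/
lemma eq_of_div_dvd {m x y : ℕ} (h : x / m = y / m) (hd : (m : ℤ) ∣ (x : ℤ) - y) (_ : 0 < m) :
    x = y := by
  have h1 : x ≡ y [MOD m] := by
    rw [← Int.natCast_modEq_iff]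
    exact Int.modEq_iff_dvd.mpr (by rw [← dvd_neg]; simpa using hd)
  have h2 : x % m = y % m := h1
  rw [← Nat.div_add_mod x m, ← Nat.div_add_mod y m, h, h2]

/-- square roots -/
lemma card_roots {b : ℕ} (hb : 2 ≤ b) (ρ : ℕ) :
    ((range b).filter (fun x => x.Coprime b ∧ x ^ 2 % b = ρ)).card ≤ 2 * b.divisors.card ^ 2 := by
  classical
  set F := (range b).filter (fun x => x.Coprime b ∧ x ^ 2 % b = ρ) with hF
  rcases F.eq_empty_or_nonempty with h0 | ⟨x0, hx0⟩
  · rw [h0]; simp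
  rw [hF, mem_filter, mem_range] at hx0
  set π : ℕ → ℕ × ℕ := fun x => (Int.gcd ((x : ℤ) - x0) b, Int.gcd ((x : ℤ) + x0) b) with hπ
  have hfacts : ∀ x ∈ F, (b : ℕ) ∣ (π x).1 * (π x).2 ∧ Nat.gcd (π x).1 (π x).2 ∣ 2 := by
    intro x hx
    rw [hF, mem_filter, mem_range] at hx
    have h1 : (b : ℤ) ∣ ((x : ℤ) - x0) * ((x : ℤ) + x0) := by
      have h2 : x0 ^ 2 ≡ x ^ 2 [MOD b] := hx0.2.2.trans hx.2.2.symm
      have h3 := (Nat.modEq_iff_dvd.mp h2)
      push_cast at h3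
      have h4 : ((x : ℤ) - x0) * ((x : ℤ) + x0) = (x : ℤ) ^ 2 - (x0 : ℤ) ^ 2 := by ring
      rw [h4]; exact h3
    constructor
    · have h5 : b ∣ ((x : ℤ) - x0).natAbs * ((x : ℤ) + x0).natAbs := by
        rw [← Int.natAbs_mul]
        exact Int.natCast_dvd.mp h1
      have h6 : b ∣ Nat.gcd b (((x : ℤ) - x0).natAbs * ((x : ℤ) + x0).natAbs) :=
        Nat.dvd_gcd dvd_rfl h5
      have h7 := h6.trans (Nat.gcd_mul_right_dvd_mul_gcd b _ _)
      have h8 : Nat.gcd b ((x : ℤ) - x0).natAbs * Nat.gcd b ((x : ℤ) + x0).natAbs =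
          (π x).1 * (π x).2 := by
        simp only [hπ, Int.gcd, Int.natAbs_natCast]
        rw [Nat.gcd_comm b, Nat.gcd_comm b]
      rw [← h8]; exact h7
    · have g1 : ((Nat.gcd (π x).1 (π x).2 : ℕ) : ℤ) ∣ (x : ℤ) - x0 :=
        (Int.natCast_dvd_natCast.mpr (Nat.gcd_dvd_left _ _)).trans (Int.gcd_dvd_left _ _)
      have g2 : ((Nat.gcd (π x).1 (π x).2 : ℕ) : ℤ) ∣ (x : ℤ) + x0 :=
        (Int.natCast_dvd_natCast.mpr (Nat.gcd_dvd_right _ _)).trans (Int.gcd_dvd_left _ _)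
      have g3 : ((Nat.gcd (π x).1 (π x).2 : ℕ) : ℤ) ∣ (b : ℤ) :=
        (Int.natCast_dvd_natCast.mpr (Nat.gcd_dvd_left _ _)).trans (Int.gcd_dvd_right _ _)
      have g4 : ((Nat.gcd (π x).1 (π x).2 : ℕ) : ℤ) ∣ 2 * x0 := by
        have := dvd_sub g2 g1
        have e : (x : ℤ) + x0 - (x - x0) = 2 * x0 := by ring
        rwa [e] at this
      have g5 : Nat.gcd (π x).1 (π x).2 ∣ 2 * x0 := by exact_mod_cast g4
      have g6 : Nat.gcd (π x).1 (π x).2 ∣ b := by exact_mod_cast g3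
      have g7 : Nat.Coprime (Nat.gcd (π x).1 (π x).2) x0 :=
        (Nat.Coprime.coprime_dvd_left g6 hx0.2.1.symm)
      exact g7.dvd_of_dvd_mul_right g5
  have h1 := Finset.card_le_mul_card_image (f := π) F 2 ?_
  · refine h1.trans (Nat.mul_le_mul_left _ ?_)
    calc (F.image π).card ≤ (b.divisors ×ˢ b.divisors).card := by
          refine Finset.card_le_card ?_
          intro e he
          obtain ⟨x, hx, rfl⟩ := Finset.mem_image.mp he
          rw [mem_product, Nat.mem_divisors, Nat.mem_divisors]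
          refine ⟨⟨?_, by omega⟩, ⟨?_, by omega⟩⟩
          · have : ((π x).1 : ℤ) ∣ (b : ℤ) := (Int.gcd_dvd_right _ _)
            exact_mod_cast this
          · have : ((π x).2 : ℤ) ∣ (b : ℤ) := (Int.gcd_dvd_right _ _)
            exact_mod_cast this
      _ = b.divisors.card ^ 2 := by rw [Finset.card_product, pow_two]
  · intro e he
    obtain ⟨x1, hx1, rfl⟩ := Finset.mem_image.mp he
    obtain ⟨f1, f2⟩ := hfacts x1 hx1
    set d1 := (π x1).1 with hd1
    set d2 := (π x1).2 with hd2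
    have hd1b : d1 ∣ b := by
      have : (d1 : ℤ) ∣ (b : ℤ) := (Int.gcd_dvd_right _ _)
      exact_mod_cast this
    have hd2b : d2 ∣ b := by
      have : (d2 : ℤ) ∣ (b : ℤ) := (Int.gcd_dvd_right _ _)
      exact_mod_cast this
    have hd1p : 0 < d1 := Nat.pos_of_dvd_of_pos hd1b (by omega)
    have hd2p : 0 < d2 := Nat.pos_of_dvd_of_pos hd2b (by omega)
    have hlp : 0 < Nat.lcm d1 d2 := Nat.lcm_pos hd1p hd2p
    have hlb : b ≤ 2 * Nat.lcm d1 d2 := by
      have e1 : b ≤ d1 * d2 := Nat.le_of_dvd (Nat.mul_pos hd1p hd2p) f1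
      have e2 : Nat.gcd d1 d2 * Nat.lcm d1 d2 = d1 * d2 := Nat.gcd_mul_lcm d1 d2
      have e3 : Nat.gcd d1 d2 ≤ 2 := Nat.le_of_dvd (by norm_num) f2
      calc b ≤ d1 * d2 := e1
        _ = Nat.gcd d1 d2 * Nat.lcm d1 d2 := e2.symm
        _ ≤ 2 * Nat.lcm d1 d2 := Nat.mul_le_mul_right _ e3
    rw [← Finset.card_range 2]
    refine Finset.card_le_card_of_injOn (fun x => x / Nat.lcm d1 d2) ?_ ?_
    · intro x hx
      rw [mem_coe, mem_filter, hF, mem_filter, mem_range] at hx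
      rw [mem_coe, mem_range]
      exact (Nat.div_lt_iff_lt_mul hlp).mpr (by omega)
    · intro x hx y hy hxy
      rw [mem_coe, mem_filter] at hx hy
      refine eq_of_div_dvd hxy ?_ hlp
      have hx1 : (π x).1 = d1 := by rw [hx.2]
      have hx2 : (π x).2 = d2 := by rw [hx.2]
      have hy1 : (π y).1 = d1 := by rw [hy.2]
      have hy2 : (π y).2 = d2 := by rw [hy.2]
      have a1 : (d1 : ℤ) ∣ (x : ℤ) - x0 := by rw [← hx1]; exact (Int.gcd_dvd_left _ _)
      have a2 : (d1 : ℤ) ∣ (y : ℤ) - x0 := by rw [← hy1]; exact (Int.gcd_dvd_left _ _)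
      have a3 : (d2 : ℤ) ∣ (x : ℤ) + x0 := by rw [← hx2]; exact (Int.gcd_dvd_left _ _)
      have a4 : (d2 : ℤ) ∣ (y : ℤ) + x0 := by rw [← hy2]; exact (Int.gcd_dvd_left _ _)
      have a5 : (d1 : ℤ) ∣ (x : ℤ) - y := by
        have := dvd_sub a1 a2
        have e : (x : ℤ) - x0 - (y - x0) = x - y := by ring
        rwa [e] at this
      have a6 : (d2 : ℤ) ∣ (x : ℤ) - y := by
        have := dvd_sub a3 a4
        have e : (x : ℤ) + x0 - (y + x0) = x - y := by ring
        rwa [e] at this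
      rw [Int.natCast_dvd] at a5 a6 ⊢
      exact Nat.lcm_dvd a5 a6

/-- residues with a small multiple -/
lemma card_small {b g δ : ℕ} (hb : 2 ≤ b) (hg : 1 ≤ g) (hδ : 1 ≤ δ) (S : Finset ℕ)
    (hS : ∀ ρ ∈ S, ρ < b ∧ ∃ t : ℤ, |t| < g ∧ (b : ℤ) ∣ (ρ : ℤ) * δ - t) :
    S.card ≤ 2 * g + δ := by
  classical
  set d := Nat.gcd δ b with hd
  have hdp : 0 < d := Nat.gcd_pos_of_pos_left _ (by omega)
  have hdδ : d ≤ δ := Nat.le_of_dvd (by omega) (Nat.gcd_dvd_left _ _)
  obtain ⟨b', hb'⟩ : d ∣ b := Nat.gcd_dvd_right _ _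
  obtain ⟨δ', hδ'⟩ : d ∣ δ := Nat.gcd_dvd_left _ _
  have hb'p : 0 < b' := by
    rcases Nat.eq_zero_or_pos b' with h | h
    · rw [h] at hb'; omega
    · exact h
  have hcop : Nat.Coprime b' δ' := by
    have h1 := Nat.coprime_div_gcd_div_gcd (m := δ) (n := b) (by rw [← hd]; exact hdp)
    rw [← hd] at h1
    have e1 : δ / d = δ' := by rw [hδ']; exact Nat.mul_div_cancel_left _ hdp
    have e2 : b / d = b' := by
      conv_lhs => rw [hb']
      exact Nat.mul_div_cancel_left _ hdp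
    rw [e1, e2] at h1
    exact h1.symm
  set k := (g - 1) / d with hk
  have hsub : S ⊆ (Icc (-(k : ℤ)) k).biUnion (fun s =>
      (range b).filter (fun ρ : ℕ => (b : ℤ) ∣ (ρ : ℤ) * δ - d * s)) := by
    intro ρ hρ
    obtain ⟨h1, t, h2, h3⟩ := hS ρ hρ
    have h4 : (d : ℤ) ∣ t := by
      have e1 : (d : ℤ) ∣ (ρ : ℤ) * δ - t := (Int.natCast_dvd_natCast.mpr (Nat.gcd_dvd_right _ _)).trans h3
      have e2 : (d : ℤ) ∣ (ρ : ℤ) * δ :=
        dvd_mul_of_dvd_right (Int.natCast_dvd_natCast.mpr (Nat.gcd_dvd_left _ _)) _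
      have := dvd_sub e2 e1
      have e : (ρ : ℤ) * δ - (ρ * δ - t) = t := by ring
      rwa [e] at this
    obtain ⟨s, hs⟩ := h4
    rw [mem_biUnion]
    refine ⟨s, ?_, ?_⟩
    · rw [mem_Icc, ← abs_le]
      have h5 : d * s.natAbs ≤ g - 1 := by
        have h6 : t.natAbs < g := by
          rw [Int.abs_eq_natAbs] at h2; exact_mod_cast h2
        have h7 : t.natAbs = d * s.natAbs := by rw [hs, Int.natAbs_mul, Int.natAbs_natCast]
        omega
      have h8 : s.natAbs ≤ k := by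
        rw [hk, Nat.le_div_iff_mul_le hdp, mul_comm]; exact h5
      rw [Int.abs_eq_natAbs]
      exact_mod_cast h8
    · rw [mem_filter, mem_range]
      exact ⟨h1, by rw [← hs]; exact h3⟩
  have hone : ∀ s ∈ Icc (-(k : ℤ)) k,
      ((range b).filter (fun ρ : ℕ => (b : ℤ) ∣ (ρ : ℤ) * δ - d * s)).card ≤ d := by
    intro s _
    calc _ ≤ (range d).card := by
          refine Finset.card_le_card_of_injOn (fun ρ => ρ / b') ?_ ?_
          · intro ρ hρ
            rw [mem_coe, mem_filter, mem_range] at hρ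
            rw [mem_coe, mem_range]
            exact (Nat.div_lt_iff_lt_mul hb'p).mpr (by rw [← hb']; exact hρ.1)
          · intro x hx y hy hxy
            rw [mem_coe, mem_filter] at hx hy
            refine eq_of_div_dvd hxy ?_ hb'p
            have h1 := dvd_sub hx.2 hy.2
            have e : (x : ℤ) * δ - d * s - (y * δ - d * s) = ((x : ℤ) - y) * δ := by ring
            rw [e] at h1
            have h2 : ((d : ℤ) * b') ∣ (d : ℤ) * (((x : ℤ) - y) * δ') := by
              have e1 : (b : ℤ) = (d : ℤ) * b' := by exact_mod_cast hb'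
              have e2 : (δ : ℤ) = (d : ℤ) * δ' := by exact_mod_cast hδ'
              rw [e2, e1] at h1
              have e3 : ((x : ℤ) - y) * ((d : ℤ) * δ') = (d : ℤ) * (((x : ℤ) - y) * δ') := by ring
              rwa [e3] at h1
            have h3 : (b' : ℤ) ∣ ((x : ℤ) - y) * δ' :=
              (mul_dvd_mul_iff_left (by exact_mod_cast hdp.ne')).mp h2
            exact (Nat.isCoprime_iff_coprime.mpr hcop).dvd_of_dvd_mul_right h3
      _ = d := Finset.card_range _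
  have h1 := (Finset.card_le_card hsub).trans Finset.card_biUnion_le
  have h2 := h1.trans (Finset.sum_le_card_nsmul _ _ d hone)
  rw [smul_eq_mul, Int.card_Icc] at h2
  have h3 : ((k : ℤ) + 1 - -(k : ℤ)).toNat = 2 * k + 1 := by omega
  rw [h3] at h2
  have h4 : k * d ≤ g - 1 := Nat.div_mul_le_self _ _
  have h5 : (2 * k + 1) * d = 2 * (k * d) + d := by ring
  omega

theorem t_SQ3 : S_SQ3 := by
  classical
  intro b g Δ P hb hg hΔ
  set A0 := (range P).filter fun p => p.Coprime b ∧ ¬ Far b g Δ p with hA0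
  set R : ℕ → Finset ℕ := fun δ => (range b).filter (fun x => x.Coprime b ∧
    ∃ t : ℤ, |t| < g ∧ (b : ℤ) ∣ (x : ℤ) ^ 2 * δ - t) with hR
  have hbp : 0 < b := by omega
  have h1 : A0.card ≤ (P / b + 1) * (A0.image (fun p => p % b)).card := by
    refine Finset.card_le_mul_card_image A0 (P / b + 1) ?_
    intro x _
    rw [← Finset.card_range (P / b + 1)]
    refine Finset.card_le_card_of_injOn (fun p => p / b) ?_ ?_
    · intro p hp
      rw [mem_coe, mem_filter, hA0, mem_filter, mem_range] at hp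
      rw [mem_coe, mem_range, Nat.lt_add_one_iff]
      exact Nat.div_le_div_right hp.1.1.le
    · intro p hp p' hp' hpp
      rw [mem_coe, mem_filter] at hp hp'
      simp only at hpp
      rw [← Nat.div_add_mod p b, ← Nat.div_add_mod p' b, hpp, hp.2, hp'.2]
  have h2 : A0.image (fun p => p % b) ⊆ (Icc 1 Δ).biUnion R := by
    intro x hx
    obtain ⟨p, hp, rfl⟩ := Finset.mem_image.mp hx
    rw [hA0, mem_filter] at hp
    obtain ⟨_, hpc, hfar⟩ := hp
    unfold Far at hfar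
    push Not at hfar
    obtain ⟨δ, hδ1, hδ2, m, hm⟩ := hfar
    rw [mem_biUnion]
    refine ⟨δ, mem_Icc.mpr ⟨hδ1, hδ2⟩, ?_⟩
    rw [hR]
    simp only [mem_filter, mem_range]
    refine ⟨Nat.mod_lt _ hbp, ?_, (p : ℤ) ^ 2 * δ - m * b, hm, ?_⟩
    · have : Nat.gcd (p % b) b = Nat.gcd p b := by
        rw [← Nat.gcd_rec b p, Nat.gcd_comm]
      unfold Nat.Coprime
      rw [this]; exact hpc
    · have e1 : (b : ℤ) ∣ (p : ℤ) - ((p % b : ℕ) : ℤ) := by
        refine ⟨(p / b : ℕ), ?_⟩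
        have := Nat.div_add_mod p b
        have h' : (p : ℤ) = (b : ℤ) * ((p / b : ℕ) : ℤ) + ((p % b : ℕ) : ℤ) := by
          exact_mod_cast this.symm
        linarith
      obtain ⟨c, hc⟩ := e1
      refine ⟨m - c * (p + ((p % b : ℕ) : ℤ)) * δ, ?_⟩
      have e2 : (p : ℤ) = ((p % b : ℕ) : ℤ) + b * c := by linarith
      have e3 : (((p % b : ℕ) : ℤ)) ^ 2 = (p : ℤ) ^ 2 - (b * c) * (p + ((p % b : ℕ) : ℤ)) := by
        have : (((p % b : ℕ) : ℤ)) ^ 2 = (p : ℤ) ^ 2 - (p - ((p % b : ℕ) : ℤ)) * (p + ((p % b : ℕ) : ℤ)) := by ring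
        rw [this, hc]
      rw [e3]; ring
  have h3 : ∀ δ ∈ Icc 1 Δ, (R δ).card ≤ (2 * g + Δ) * (2 * b.divisors.card ^ 2) := by
    intro δ hδ
    rw [mem_Icc] at hδ
    have k1 := Finset.card_le_mul_card_image (f := fun x => x ^ 2 % b) (R δ)
      (2 * b.divisors.card ^ 2) ?_
    · refine k1.trans ?_
      rw [mul_comm]
      refine Nat.mul_le_mul_right _ ?_
      refine (card_small hb hg hδ.1 _ ?_).trans (by omega)
      intro ρ hρ
      obtain ⟨x, hx, rfl⟩ := Finset.mem_image.mp hρ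
      rw [hR] at hx
      simp only [mem_filter, mem_range] at hx
      obtain ⟨_, _, t, ht, htd⟩ := hx
      refine ⟨Nat.mod_lt _ hbp, t, ht, ?_⟩
      have e1 : (b : ℤ) ∣ ((x : ℤ) ^ 2) - (((x ^ 2 % b : ℕ)) : ℤ) := by
        refine ⟨((x ^ 2 / b : ℕ)), ?_⟩
        have := Nat.div_add_mod (x ^ 2) b
        have h' : ((x : ℤ)) ^ 2 = (b : ℤ) * ((x ^ 2 / b : ℕ) : ℤ) + ((x ^ 2 % b : ℕ) : ℤ) := by
          exact_mod_cast this.symm
        linarith
      have e2 := dvd_sub htd (dvd_mul_of_dvd_left e1 (δ : ℤ))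
      have e3 : (x : ℤ) ^ 2 * δ - t - ((x : ℤ) ^ 2 - ((x ^ 2 % b : ℕ) : ℤ)) * δ =
          ((x ^ 2 % b : ℕ) : ℤ) * δ - t := by ring
      rwa [e3] at e2
    · intro ρ _
      refine (Finset.card_le_card ?_).trans (card_roots hb ρ)
      intro x hx
      rw [mem_filter, hR] at hx
      simp only [mem_filter, mem_range] at hx ⊢
      exact ⟨hx.1.1, hx.1.2.1, hx.2⟩
  have h4 : (A0.image (fun p => p % b)).card ≤ Δ * ((2 * g + Δ) * (2 * b.divisors.card ^ 2)) := by
    refine (Finset.card_le_card h2).trans (Finset.card_biUnion_le.trans ?_)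
    have := Finset.sum_le_card_nsmul _ _ _ h3
    rwa [Nat.card_Icc, Nat.add_sub_cancel, smul_eq_mul] at this
  have h5 : (A0.card : ℝ) ≤ (((P / b + 1) * (Δ * ((2 * g + Δ) * (2 * b.divisors.card ^ 2))) : ℕ) : ℝ) := by
    exact_mod_cast h1.trans (Nat.mul_le_mul_left _ h4)
  refine h5.trans ?_
  push_cast
  have h6 := Nat.cast_div_le (α := ℝ) (m := P) (n := b)
  have h7 : (0 : ℝ) ≤ Δ * ((2 * g + Δ) * (2 * (b.divisors.card : ℝ) ^ 2)) := by positivity
  calc (((P / b : ℕ) : ℝ) + 1) * (Δ * ((2 * g + Δ) * (2 * (b.divisors.card : ℝ) ^ 2))) ≤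
        ((P : ℝ) / b + 1) * (Δ * ((2 * g + Δ) * (2 * (b.divisors.card : ℝ) ^ 2))) :=
        mul_le_mul_of_nonneg_right (by linarith) h7
    _ = _ := by ring

end Pool.Agent.Zk78.FD46
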